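import Pool.Agent.H690R2.CQ.Final
import Pool.Agent.Results.MP_174cbb_lc.Regular

/-!
# Failure of dual atomicity of the clone lattice at singular cardinals

Let `X` be an infinite set such that the Baire category theorem holds in the space `ℕ ^ X` for
fewer than `2 ^ #X` dense open sets.  Then the clone lattice on `X` is not dually atomic.

The cardinality of `X` may be singular.  The hypothesis holds for `#X = κ` in the model obtained by
adding `λ = λ ^ κ` Cohen reals, and under Martin's axiom whenever `κ < 2 ^ ℵ₀`.  So it is consistent
that `CLONE(ℵ_ω)` is not dually atomic.

Idea of the proof.  Let `ι : ℕ → X` be injective.  By recursion of length `2 ^ κ` choose for every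
`f : X → X` generic functions `a_f : X → ℕ` and `b_f, s_f : ℕ → ℕ`.  The decoder of `f` is the
operation `c_f(x, y) = f(x)` if `b_f(a_f(x)) ≤ y`, and `x` otherwise.  For an ultrafilter `𝓤` on `ℕ`
and a growth function `h` let `D(h)` be the clone of the operations whose values can be computed in
a bounded number of steps with finitely many constants and decoders and with the integers up to
`nx_Y(h(n))`, where `Y ∈ 𝓤`, `nx_Y` is the next element of `Y` and `n` is the largest integer
obtained so far.  Genericity makes the ideal generated by the sets `Y` for which this reaches `s_f`
proper, which gives `𝓤` such that all the clones `D(h)` are proper, while every operation is in some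
`D(h)`.  Finally, since `𝓤` is an ultrafilter, a clone `E ⊇ D(id)` that does not contain `h` can
be enlarged by `h` without becoming the clone of all operations; so no precomplete clone lies above
`D(id)`.
-/

namespace Pool.Agent.Results.MP_174cbb_lc.SingularFailure

open Cardinal Pool.Agent.Results.MP_174cbb_lc.Regular

universe u

/-- Let `X` be an infinite set such that every family of fewer than `2 ^ #X` dense open subsets of
the product space `ℕ ^ X` has a common point.  Then the clone lattice on `X` is not dually atomic.
(No regularity of `#X` is assumed.) -/
theorem result (X : Type u) [Infinite X]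
    (h : ∀ 𝓓 : Set (Set (X → ℕ)), #𝓓 < 2 ^ #X → (∀ D ∈ 𝓓, IsOpen D ∧ Dense D) →
      (⋂₀ 𝓓).Nonempty) :
    ¬ DuallyAtomic X :=
  Pool.Agent.H690R2.CQ.not_duallyAtomic X h

end Pool.Agent.Results.MP_174cbb_lc.SingularFailure
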