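import Pool.Agent.H690R2.CL.Build
import Pool.Agent.H690R2.CL.Beth
import Pool.Agent.Results.MP_174cbb_lc.Regular

/-!
# Dual atomicity of clone lattices: regular cardinals versus singular strong limit cardinals

`DuallyAtomic X` (defined in `Pool.Agent.Results.MP_174cbb_lc.Regular`) says that every clone on
`X` other than the clone of all operations lies below a precomplete clone.

* If `#X` is regular, the clone lattice is not dually atomic (this is the theorem of the imported
  file).
* If `#X` is a singular strong limit cardinal, the clone lattice IS dually atomic (new).
* Singular strong limit cardinals exist, e.g. `ℶ_ω`.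

Hence ZFC refutes the statement that `CLONE(κ)` is not dually atomic for every infinite `κ`.  Under GCH (in fact as
soon as every singular cardinal is a strong limit) the clone lattice on an infinite set is dually
atomic if and only if the cardinality of the set is singular.

Idea of the proof for singular strong limit `κ`, `μ = cf κ`.  Suppose no precomplete clone lies
above the proper clone `C`.  By Zorn's lemma, finitely many operations, and then all constants, can
be added to `C` keeping this property.  As `κ` is a strong limit, there is an operation `E(c, i, x)`
such that every map `X → X` that is bounded on the `i`-th level set, with range in some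
level set, is `E(c, i, ·)` for some `c`; so a clone containing `E`, a pairing, the constants
and the level map is everything as soon as it contains, for every sequence `b` of length `μ`, a
unary operation extending it cofinally often.  As `2 ^ μ < κ`, a diagonal argument gives one sequence
`b` along some `w` such that for each clone `D` in question, `D` is proper exactly if no unary
member maps `w i` to `b i` for cofinally many `i`; this property is of finite character under unions
of chains, so a maximal such clone exists, and it is precomplete.
-/

namespace Pool.Agent.Results.MP_174cbb_lc.SingularStrongLimit

open Cardinal Pool.Agent.Results.MP_174cbb_lc.Regular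

universe u

/-- The clone lattice is not dually atomic on a set of regular cardinality, it is dually atomic on
every set whose cardinality is a singular strong limit, and such sets exist.  Consequently, if every
singular cardinal is a strong limit (for instance under GCH), the clone lattice on an infinite set
`X` is dually atomic if and only if `#X` is singular. -/
theorem result :
    (∀ X : Type u, (#X).IsRegular → ¬ DuallyAtomic X) ∧
    (∀ X : Type u, (#X).IsSingular → (#X).IsStrongLimit → DuallyAtomic X) ∧
    (∃ X : Type u, (#X).IsSingular ∧ (#X).IsStrongLimit) ∧
    ((∀ c : Cardinal.{u}, ℵ₀ ≤ c → 2 ^ c = Order.succ c) →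
      ∀ X : Type u, Infinite X → (DuallyAtomic X ↔ (#X).IsSingular)) := by
  have h1 : ∀ X : Type u, (#X).IsRegular → ¬ DuallyAtomic X := fun X hX => Regular.result X hX
  have h2 : ∀ X : Type u, (#X).IsSingular → (#X).IsStrongLimit → DuallyAtomic X :=
    fun X h h' => Pool.Agent.H690R2.CL.duallyAtomic h' h
  refine ⟨h1, h2, ?_, ?_⟩
  · obtain ⟨X, h, h'⟩ := Pool.Agent.H690R2.CL.exists_type.{u}
    exact ⟨X, h', h⟩
  · intro gch X hX
    refine ⟨fun hda => ?_, fun hs => h2 X hs ?_⟩
    · by_contra hns
      exact h1 X (IsRegular.of_not_isSingular (Cardinal.infinite_iff.1 hX) hns) hda
    · refine ⟨hs.pos.ne', fun x hx => ?_⟩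
      rcases lt_or_ge x ℵ₀ with hfin | hinf
      · exact (Cardinal.power_lt_aleph0 (Cardinal.natCast_lt_aleph0 (n := 2)) hfin).trans_le
          (Cardinal.infinite_iff.1 hX)
      · rw [gch x hinf]
        exact hs.isSuccLimit.succ_lt hx

end Pool.Agent.Results.MP_174cbb_lc.SingularStrongLimit
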